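import Mathlib

set_option autoImplicit false

/-! Definitions for the mean subtree order of a graph and edge contraction. -/

namespace Pool.Agent.Lib.MP_e83d06_co

variable {V : Type*}

/-- `s_k(G)`: the number of subtrees of `G` with `k` vertices. A subtree is any subgraph of `G`
(not necessarily induced) that is a tree. -/
noncomputable def subtreeCount (G : SimpleGraph V) (k : ℕ) : ℕ :=
  {H : G.Subgraph | H.coe.IsTree ∧ H.verts.ncard = k}.ncard

/-- The mean subtree order `μ(G) = (∑ k s_k(G)) / (∑ s_k(G))`, both sums over `1 ≤ k ≤ n`, where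
`n` is the order of `G`. -/
noncomputable def meanSubtreeOrder [Fintype V] (G : SimpleGraph V) : ℝ :=
  (∑ k ∈ Finset.Icc 1 (Fintype.card V), (k : ℝ) * subtreeCount G k) /
    ∑ k ∈ Finset.Icc 1 (Fintype.card V), (subtreeCount G k : ℝ)

/-- The contraction `G/e` of the edge `e = uv`, as a simple graph: the vertex `v` is removed and
`u` plays the role of the merged vertex, adjacent to every other vertex that was adjacent to `u` or
to `v`. -/
def contract (G : SimpleGraph V) (u v : V) : SimpleGraph {w : V // w ≠ v} where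
  Adj a b := a ≠ b ∧ (G.Adj a.1 b.1 ∨ (a.1 = u ∧ G.Adj v b.1) ∨ (b.1 = u ∧ G.Adj a.1 v))
  symm := by
    constructor
    intro a b h
    refine ⟨h.1.symm, ?_⟩
    rcases h.2 with h | h | h
    · exact Or.inl h.symm
    · exact Or.inr (Or.inr ⟨h.1, h.2.symm⟩)
    · exact Or.inr (Or.inl ⟨h.1, h.2.symm⟩)
  loopless := ⟨fun a h => h.1 rfl⟩

end Pool.Agent.Lib.MP_e83d06_co
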