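import Mathlib
import Pool.Agent.Lib.MP_e83d06_co.Defs

set_option autoImplicit false

namespace Pool.Agent.Lib.MP_e83d06_co

open SimpleGraph

variable {V : Type*}

/-- Acyclicity from a rank function. -/
theorem isAcyclic_of_rank {G : SimpleGraph V} (r : V → ℕ)
    (h : ∀ v w w', G.Adj v w → G.Adj v w' → r w ≤ r v → r w' ≤ r v → w = w') :
    G.IsAcyclic := by
  classical
  intro v p hp
  obtain ⟨m, hm, hmax⟩ := p.support.toFinset.exists_max_image r
    ⟨v, by simp⟩
  rw [List.mem_toFinset] at hm
  have hq := hp.rotate hm
  have hsup : ∀ x, x ∈ (p.rotate m hm).support → r x ≤ r m := by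
    intro x hx
    apply hmax
    rw [List.mem_toFinset]
    rw [Walk.mem_support_rotate_iff p m hm] at hx
    exact hx
  have h1 : G.Adj m (p.rotate m hm).snd := (p.rotate m hm).adj_snd hq.not_nil
  have h2 : G.Adj m (p.rotate m hm).penultimate :=
    ((p.rotate m hm).adj_penultimate hq.not_nil).symm
  have := h m _ _ h1 h2 (hsup _ ((p.rotate m hm).getVert_mem_support 1))
    (hsup _ ((p.rotate m hm).getVert_mem_support _))
  exact hq.snd_ne_penultimate this

/-- Connected subgraphs stay inside sets closed under adjacency. -/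
theorem verts_subset_of_closed {G : SimpleGraph V} {H : G.Subgraph} (hc : H.coe.Preconnected)
    (A : Set V) (hA : ∀ v w, v ∈ A → H.Adj v w → w ∈ A) {v₀ : V} (h0 : v₀ ∈ A)
    (h0' : v₀ ∈ H.verts) : H.verts ⊆ A := by
  intro w hw
  obtain ⟨p⟩ := hc ⟨v₀, h0'⟩ ⟨w, hw⟩
  have key : ∀ (x y : H.verts) (_ : H.coe.Walk x y), x.1 ∈ A → y.1 ∈ A := by
    intro x y q
    induction q with
    | nil => exact id
    | cons hadj _ ih =>
      intro hx
      apply ih
      exact hA _ _ hx hadj
  exact key _ _ p h0

section Iso

variable {V' : Type*} {G : SimpleGraph V} {G' : SimpleGraph V'}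

/-- The image of a subgraph under a graph isomorphism, restricted to its vertices. -/
noncomputable def mapIso (φ : G ≃g G') (H : G.Subgraph) : H.coe ≃g (H.map φ.toHom).coe where
  toEquiv := Equiv.Set.image φ H.verts φ.injective
  map_rel_iff' := by
    intro a b
    constructor
    · intro h
      obtain ⟨a', b', h', ha, hb⟩ := h
      have ha' : a' = a.1 := φ.injective ha
      have hb' : b' = b.1 := φ.injective hb
      subst ha'; subst hb'
      exact h'
    · intro h
      exact ⟨a.1, b.1, h, rfl, rfl⟩

/-- Graph isomorphisms transport subtrees. -/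
noncomputable def subtreeEquiv (φ : G ≃g G') :
    {H : G.Subgraph // H.coe.IsTree} ≃ {H : G'.Subgraph // H.coe.IsTree} where
  toFun H := ⟨H.1.map φ.toHom, (mapIso φ H.1).isTree_iff.mp H.2⟩
  invFun H := ⟨H.1.map φ.symm.toHom, (mapIso φ.symm H.1).isTree_iff.mp H.2⟩
  left_inv := by
    intro H
    apply Subtype.ext
    simp only
    rw [← Subgraph.map_comp]
    have : φ.symm.toHom.comp φ.toHom = Hom.id := by
      ext x
      simp
    rw [this, Subgraph.map_id]
  right_inv := by
    intro H
    apply Subtype.ext
    simp only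
    rw [← Subgraph.map_comp]
    have : φ.toHom.comp φ.symm.toHom = Hom.id := by
      ext x
      simp
    rw [this, Subgraph.map_id]

end Iso

/-- The mean subtree order from any enumeration of the subtrees. -/
theorem mean_eq [Fintype V] {G : SimpleGraph V} {D : Type*} [Fintype D]
    (e : D ≃ {H : G.Subgraph // H.coe.IsTree}) :
    meanSubtreeOrder G = (∑ d, ((e d).1.verts.ncard : ℝ)) / Fintype.card D := by
  classical
  have hcount : ∀ k, subtreeCount G k
      = (Finset.univ.filter (fun d => (e d).1.verts.ncard = k)).card := by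
    intro k
    unfold subtreeCount
    rw [← Set.ncard_coe_finset]
    refine (Set.ncard_congr (fun d _ => (e d).1) ?_ ?_ ?_).symm
    · intro d hd
      simp only [Finset.coe_filter, Finset.mem_univ, true_and, Set.mem_ofPred_eq] at hd
      exact ⟨(e d).2, hd⟩
    · intro a b _ _ hab
      exact e.injective (Subtype.ext hab)
    · intro H hH
      refine ⟨e.symm ⟨H, hH.1⟩, ?_, by simp⟩
      simp only [Finset.coe_filter, Finset.mem_univ, true_and, Set.mem_ofPred_eq,
        Equiv.apply_symm_apply]
      exact hH.2
  have hmem : ∀ d ∈ (Finset.univ : Finset D), (e d).1.verts.ncard ∈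
      Finset.Icc 1 (Fintype.card V) := by
    intro d _
    rw [Finset.mem_Icc]
    constructor
    · have hne : (e d).1.verts.Nonempty := by
        have := (e d).2.connected.nonempty
        exact Set.nonempty_coe_sort.mp this
      exact (Set.ncard_pos (Set.toFinite _)).mpr hne
    · rw [← Nat.card_eq_fintype_card]
      exact Set.ncard_le_card _
  unfold meanSubtreeOrder
  congr 1
  · rw [← Finset.sum_fiberwise_of_maps_to hmem]
    refine Finset.sum_congr rfl fun k _ => ?_
    rw [hcount, Finset.sum_congr rfl (g := fun _ => (k : ℝ))]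
    · rw [Finset.sum_const, nsmul_eq_mul, mul_comm]
    · intro d hd
      rw [Finset.mem_filter] at hd
      rw [hd.2]
  · have : (Fintype.card D : ℝ) = ∑ _d : D, (1 : ℝ) := by simp
    rw [this, ← Finset.sum_fiberwise_of_maps_to hmem]
    refine Finset.sum_congr rfl fun k _ => ?_
    rw [hcount]
    simp

/-- The mean subtree order is invariant under isomorphism. -/
theorem mean_iso [Fintype V] {V' : Type*} [Fintype V'] {G : SimpleGraph V} {G' : SimpleGraph V'}
    (φ : G ≃g G') : meanSubtreeOrder G = meanSubtreeOrder G' := by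
  classical
  have : Fintype {H : G.Subgraph // H.coe.IsTree} := Fintype.ofFinite _
  rw [mean_eq (Equiv.refl {H : G.Subgraph // H.coe.IsTree}), mean_eq (subtreeEquiv φ)]
  congr 1
  refine Finset.sum_congr rfl fun H _ => ?_
  have : ((subtreeEquiv φ) H).1.verts = φ '' H.1.verts := rfl
  rw [this, Set.ncard_image_of_injective _ φ.injective]
  rfl

end Pool.Agent.Lib.MP_e83d06_co
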