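import Mathlib
import Pool.Agent.Lib.MP_e83d06_co.Basic

set_option autoImplicit false
set_option linter.unusedSectionVars false

namespace Pool.Agent.Lib.MP_e83d06_co

open SimpleGraph

/-- The leafy cycle: a cycle with vertex set `ZMod n` together with pendant vertices `l : Λ`,
attached at `h l`. -/
def LC (n : ℕ) {Λ : Type*} (h : Λ → ZMod n) : SimpleGraph (ZMod n ⊕ Λ) where
  Adj v w := match v, w with
    | Sum.inl i, Sum.inl j => i ≠ j ∧ (j = i + 1 ∨ i = j + 1)
    | Sum.inl i, Sum.inr l => h l = i
    | Sum.inr l, Sum.inl i => h l = i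
    | Sum.inr _, Sum.inr _ => False
  symm := by
    constructor
    rintro (i | l) (j | m) hh
    · exact ⟨hh.1.symm, hh.2.symm⟩
    · exact hh
    · exact hh
    · exact hh
  loopless := by
    constructor
    rintro (i | l) hh
    · exact hh.1 rfl
    · exact hh

variable {n : ℕ} {Λ : Type*} {h : Λ → ZMod n}

/-- The position of `i` on the cycle, counted from `a`. -/
def pos (a i : ZMod n) : ℕ := (i - a).val

section pos

variable [NeZero n]

theorem pos_lt (a i : ZMod n) : pos a i < n := ZMod.val_lt _

theorem add_pos_cast (a i : ZMod n) : a + (pos a i : ZMod n) = i := by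
  simp [pos]

theorem pos_add_cast (a : ZMod n) {m : ℕ} (hm : m < n) : pos a (a + (m : ZMod n)) = m := by
  simp only [pos, add_sub_cancel_left]
  exact ZMod.val_cast_of_lt hm

theorem pos_inj {a i j : ZMod n} (hij : pos a i = pos a j) : i = j := by
  rw [← add_pos_cast a i, hij, add_pos_cast]

theorem pos_self (a : ZMod n) : pos a a = 0 := by simp [pos]

theorem pos_eq_zero {a i : ZMod n} (hi : pos a i = 0) : i = a :=
  pos_inj (a := a) (by rw [hi, pos_self])

theorem pos_succ {a i : ZMod n} (hi : pos a i + 1 < n) : pos a (i + 1) = pos a i + 1 := by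
  have h1 : i + 1 = a + ((pos a i + 1 : ℕ) : ZMod n) := by
    push_cast
    rw [← add_assoc, add_pos_cast]
  rw [h1, pos_add_cast a hi]

theorem pos_pred {a i : ZMod n} (hi : 0 < pos a i) : pos a (i - 1) + 1 = pos a i := by
  have hlt := pos_lt a i
  have h1 : i - 1 = a + ((pos a i - 1 : ℕ) : ZMod n) := by
    have h2 := add_pos_cast a i
    have h3 : ((pos a i - 1 : ℕ) : ZMod n) = (pos a i : ZMod n) - 1 := by
      rw [Nat.cast_sub hi]
      simp
    rw [h3]
    linear_combination -h2
  rw [h1, pos_add_cast a (by omega)]
  omega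

theorem pos_wrap {a i : ZMod n} (hi : pos a i + 1 = n) : i + 1 = a := by
  have h1 : i + 1 = a + ((pos a i + 1 : ℕ) : ZMod n) := by
    push_cast
    rw [← add_assoc, add_pos_cast]
  rw [h1, hi]
  simp

end pos

/-- The subtree of the leafy cycle with cycle vertices at positions `0, …, k` from `a` and set of
pendant vertices `S`. -/
def sub (h : Λ → ZMod n) (a : ZMod n) (k : ℕ) (hk : k < n) (S : Finset Λ)
    (hS : ∀ l ∈ S, pos a (h l) ≤ k) : (LC n h).Subgraph where
  verts := {v | match v with
    | Sum.inl i => pos a i ≤ k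
    | Sum.inr l => l ∈ S}
  Adj v w := match v, w with
    | Sum.inl i, Sum.inl j => (pos a j = pos a i + 1 ∧ pos a j ≤ k) ∨
        (pos a i = pos a j + 1 ∧ pos a i ≤ k)
    | Sum.inl i, Sum.inr l => h l = i ∧ l ∈ S
    | Sum.inr l, Sum.inl i => h l = i ∧ l ∈ S
    | Sum.inr _, Sum.inr _ => False
  adj_sub := by
    have hn : NeZero n := ⟨by omega⟩
    rintro (i | l) (j | m) hh
    · have key : ∀ i j : ZMod n, pos a j = pos a i + 1 → j = i + 1 := by
        intro i j hij
        apply pos_inj (a := a)
        rw [pos_succ (by rw [← hij]; exact pos_lt a j), hij]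
      rcases hh with hh | hh
      · refine ⟨?_, Or.inl (key i j hh.1)⟩
        rintro rfl
        omega
      · refine ⟨?_, Or.inr (key j i hh.1)⟩
        rintro rfl
        omega
    · exact hh.1
    · exact hh.1
    · exact hh
  edge_vert := by
    rintro (i | l) (j | m) hh
    · rcases hh with hh | hh
      · show pos a i ≤ k
        omega
      · exact hh.2
    · show pos a i ≤ k
      rw [← hh.1]
      exact hS _ hh.2
    · exact hh.2
    · exact hh.elim
  symm := by
    constructor
    rintro (i | l) (j | m) hh
    · exact hh.symm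
    · exact hh
    · exact hh
    · exact hh

section

variable [NeZero n]

theorem sub_isAcyclic (a : ZMod n) (k : ℕ) (hk : k < n) (S : Finset Λ)
    (hS : ∀ l ∈ S, pos a (h l) ≤ k) : (sub h a k hk S hS).coe.IsAcyclic := by
  apply isAcyclic_of_rank (fun v => Sum.elim (fun i => pos a i) (fun _ => n) v.1)
  rintro ⟨v, hv⟩ ⟨w, hw⟩ ⟨w', hw'⟩ h1 h2 h3 h4
  change (sub h a k hk S hS).Adj v w at h1
  change (sub h a k hk S hS).Adj v w' at h2
  apply Subtype.ext
  simp only at h3 h4 ⊢
  rcases v with i | l
  · rcases w with j | m
    · rcases w' with j' | m'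
      · simp only [Sum.elim_inl] at h3 h4
        have e1 : pos a i = pos a j + 1 := by
          rcases h1 with h1 | h1
          · omega
          · exact h1.1
        have e2 : pos a i = pos a j' + 1 := by
          rcases h2 with h2 | h2
          · omega
          · exact h2.1
        rw [pos_inj (a := a) (i := j) (j := j') (by omega)]
      · simp only [Sum.elim_inl, Sum.elim_inr] at h4
        have := pos_lt a i
        omega
    · simp only [Sum.elim_inl, Sum.elim_inr] at h3
      have := pos_lt a i
      omega
  · rcases w with j | m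
    · rcases w' with j' | m'
      · have e1 : h l = j := h1.1
        have e2 : h l = j' := h2.1
        rw [← e1, ← e2]
      · exact h2.elim
    · exact h1.elim

theorem sub_connected (a : ZMod n) (k : ℕ) (hk : k < n) (S : Finset Λ)
    (hS : ∀ l ∈ S, pos a (h l) ≤ k) : (sub h a k hk S hS).coe.Connected := by
  rw [connected_iff_exists_forall_reachable]
  have h0 : (Sum.inl a : ZMod n ⊕ Λ) ∈ (sub h a k hk S hS).verts := by
    show pos a a ≤ k
    rw [pos_self]
    omega
  refine ⟨⟨Sum.inl a, h0⟩, ?_⟩
  have key : ∀ m : ℕ, m ≤ k → ∀ hm : (Sum.inl (a + (m : ZMod n)) : ZMod n ⊕ Λ) ∈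
      (sub h a k hk S hS).verts, (sub h a k hk S hS).coe.Reachable ⟨Sum.inl a, h0⟩
        ⟨Sum.inl (a + (m : ZMod n)), hm⟩ := by
    intro m
    induction m with
    | zero =>
      intro _ hm
      have : (⟨Sum.inl (a + ((0 : ℕ) : ZMod n)), hm⟩ : (sub h a k hk S hS).verts)
          = ⟨Sum.inl a, h0⟩ := by
        apply Subtype.ext
        simp
      rw [this]
    | succ m ih =>
      intro hmk hm
      have hm' : (Sum.inl (a + (m : ZMod n)) : ZMod n ⊕ Λ) ∈ (sub h a k hk S hS).verts := by
        show pos a (a + (m : ZMod n)) ≤ k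
        rw [pos_add_cast a (by omega)]
        omega
      refine (ih (by omega) hm').trans (Adj.reachable ?_)
      show (sub h a k hk S hS).Adj (Sum.inl (a + (m : ZMod n))) (Sum.inl (a + ((m + 1 : ℕ) : ZMod n)))
      left
      rw [pos_add_cast a (by omega), pos_add_cast a (by omega)]
      exact ⟨rfl, hmk⟩
  have key' : ∀ i : ZMod n, ∀ hi : (Sum.inl i : ZMod n ⊕ Λ) ∈ (sub h a k hk S hS).verts,
      (sub h a k hk S hS).coe.Reachable ⟨Sum.inl a, h0⟩ ⟨Sum.inl i, hi⟩ := by
    intro i hi
    have hi' : pos a i ≤ k := hi
    have e := add_pos_cast a i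
    have hm : (Sum.inl (a + (pos a i : ZMod n)) : ZMod n ⊕ Λ) ∈ (sub h a k hk S hS).verts := by
      rw [e]
      exact hi
    have := key (pos a i) hi' hm
    have e2 : (⟨Sum.inl (a + (pos a i : ZMod n)), hm⟩ : (sub h a k hk S hS).verts)
        = ⟨Sum.inl i, hi⟩ := by
      apply Subtype.ext
      simp only [e]
    rwa [e2] at this
  rintro ⟨i | l, hv⟩
  · exact key' i hv
  · have hl : l ∈ S := hv
    refine (key' (h l) (hS l hl)).trans (Adj.reachable ?_)
    exact ⟨rfl, hl⟩

theorem sub_isTree (a : ZMod n) (k : ℕ) (hk : k < n) (S : Finset Λ)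
    (hS : ∀ l ∈ S, pos a (h l) ≤ k) : (sub h a k hk S hS).coe.IsTree :=
  ⟨sub_connected a k hk S hS, sub_isAcyclic a k hk S hS⟩

/-- Acyclicity forbids the closing edge. -/
theorem no_wrap (hn : 3 ≤ n) {H : (LC n h).Subgraph} (hac : H.coe.IsAcyclic) (a : ZMod n)
    (hv : ∀ j : ℕ, j ≤ n - 1 → (Sum.inl (a + (j : ZMod n)) : ZMod n ⊕ Λ) ∈ H.verts)
    (he : ∀ j : ℕ, j < n - 1 → H.Adj (Sum.inl (a + (j : ZMod n)))
      (Sum.inl (a + (j : ZMod n) + 1))) :
    ¬ H.Adj (Sum.inl (a - 1)) (Sum.inl a) := by
  intro hadj
  have h0 : (Sum.inl a : ZMod n ⊕ Λ) ∈ H.verts := by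
    have := hv 0 (by omega)
    simpa using this
  have h1 : (Sum.inl (a - 1) : ZMod n ⊕ Λ) ∈ H.verts := H.edge_vert hadj
  have hb := (isAcyclic_iff_forall_adj_isBridge.mp hac)
    (v := ⟨Sum.inl a, h0⟩) (w := ⟨Sum.inl (a - 1), h1⟩) hadj.symm
  rw [isBridge_iff] at hb
  apply hb
  have hlast : a - 1 = a + ((n - 1 : ℕ) : ZMod n) := by
    rw [Nat.cast_sub (by omega)]
    simp
    ring
  have key : ∀ m : ℕ, ∀ hm : m ≤ n - 1,
      (H.coe.deleteEdges {s(⟨Sum.inl a, h0⟩, ⟨Sum.inl (a - 1), h1⟩)}).Reachable
        ⟨Sum.inl a, h0⟩ ⟨Sum.inl (a + (m : ZMod n)), hv m hm⟩ := by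
    intro m
    induction m with
    | zero =>
      intro hm
      have : (⟨Sum.inl (a + ((0 : ℕ) : ZMod n)), hv 0 hm⟩ : H.verts) = ⟨Sum.inl a, h0⟩ := by
        apply Subtype.ext
        simp
      rw [this]
    | succ m ih =>
      intro hm
      refine (ih (by omega)).trans (Adj.reachable ?_)
      rw [deleteEdges_adj]
      refine ⟨?_, ?_⟩
      · show H.Adj (Sum.inl (a + (m : ZMod n))) (Sum.inl (a + ((m + 1 : ℕ) : ZMod n)))
        have := he m (by omega)
        push_cast
        rw [← add_assoc]
        exact this
      · rw [Set.mem_singleton_iff, Sym2.eq_iff]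
        simp only [Subtype.mk.injEq, Sum.inl.injEq]
        rw [hlast]
        have p0 : pos a a = 0 := pos_self a
        have pm : pos a (a + (m : ZMod n)) = m := pos_add_cast a (by omega)
        have pm' : pos a (a + ((m + 1 : ℕ) : ZMod n)) = m + 1 := pos_add_cast a (by omega)
        have pn : pos a (a + ((n - 1 : ℕ) : ZMod n)) = n - 1 := pos_add_cast a (by omega)
        rintro (⟨e1, e2⟩ | ⟨e1, e2⟩)
        · rw [e1, p0] at pm
          rw [e2, pn] at pm'
          omega
        · rw [e1, pn] at pm
          omega
  have := key (n - 1) le_rfl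
  have e : (⟨Sum.inl (a + ((n - 1 : ℕ) : ZMod n)), hv (n - 1) le_rfl⟩ : H.verts)
      = ⟨Sum.inl (a - 1), h1⟩ := by
    apply Subtype.ext
    simp only [hlast]
  rwa [e] at this

/-- Every subtree of a leafy cycle is a single pendant vertex or one of the `sub`. -/
theorem exists_sub [Fintype Λ] (hn : 3 ≤ n) {H : (LC n h).Subgraph} (hH : H.coe.IsTree) :
    (∃ l, H = (LC n h).singletonSubgraph (Sum.inr l)) ∨
    ∃ (a : ZMod n) (k : ℕ) (hk : k < n) (S : Finset Λ) (hS : ∀ l ∈ S, pos a (h l) ≤ k),
      H = sub h a k hk S hS := by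
  classical
  have hpre := hH.connected.preconnected
  by_cases hcyc : ∃ i, (Sum.inl i : ZMod n ⊕ Λ) ∈ H.verts
  swap
  · left
    push Not at hcyc
    obtain ⟨⟨v, hv⟩⟩ := hH.connected.nonempty
    rcases v with i | l
    · exact absurd hv (hcyc i)
    · refine ⟨l, ?_⟩
      rw [eq_singletonSubgraph_iff_verts_eq]
      apply Set.Subset.antisymm
      · refine verts_subset_of_closed hpre {Sum.inr l} ?_ (Set.mem_singleton _) hv
        intro v w hv' hadj
        rw [Set.mem_singleton_iff] at hv'
        subst hv'
        rcases w with j | m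
        · exact absurd (H.edge_vert hadj.symm) (hcyc j)
        · exact (hadj.adj_sub).elim
      · intro x hx
        rw [Set.mem_singleton_iff] at hx
        rw [hx]
        exact hv
  · right
    obtain ⟨i₀, hi₀⟩ := hcyc
    let P : ℕ → Prop := fun k => ∃ a : ZMod n,
      (∀ j : ℕ, j ≤ k → (Sum.inl (a + (j : ZMod n)) : ZMod n ⊕ Λ) ∈ H.verts) ∧
      (∀ j : ℕ, j < k → H.Adj (Sum.inl (a + (j : ZMod n))) (Sum.inl (a + (j : ZMod n) + 1)))
    have hP0 : P 0 := by
      refine ⟨i₀, ?_, ?_⟩
      · intro j hj
        obtain rfl : j = 0 := by omega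
        simpa using hi₀
      · intro j hj
        omega
    obtain ⟨k, hkdef⟩ : ∃ k, k = Nat.findGreatest P (n - 1) := ⟨_, rfl⟩
    have hPk : P k := by
      rw [hkdef]
      exact Nat.findGreatest_spec (P := P) (Nat.zero_le _) hP0
    have hkn : k ≤ n - 1 := by
      rw [hkdef]
      exact Nat.findGreatest_le _
    have hmax : ∀ m, k < m → m ≤ n - 1 → ¬ P m := by
      intro m h1 h2
      rw [hkdef] at h1
      exact Nat.findGreatest_is_greatest h1 h2
    have hk : k < n := by omega
    obtain ⟨a, hv, he⟩ := hPk
    have hav : (Sum.inl a : ZMod n ⊕ Λ) ∈ H.verts := by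
      have := hv 0 (by omega)
      simpa using this
    -- the edge before `a` is missing
    have hA : ¬ H.Adj (Sum.inl (a - 1)) (Sum.inl a) := by
      rcases Nat.lt_or_ge k (n - 1) with hlt | hge
      · intro hadj
        apply hmax (k + 1) (by omega) (by omega)
        refine ⟨a - 1, ?_, ?_⟩
        · intro j hj
          rcases j with _ | j
          · simpa using H.edge_vert hadj
          · have := hv j (by omega)
            have e : a - 1 + ((j + 1 : ℕ) : ZMod n) = a + (j : ZMod n) := by
              push_cast
              ring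
            rw [e]
            exact this
        · intro j hj
          rcases j with _ | j
          · have e : a - 1 + ((0 : ℕ) : ZMod n) = a - 1 := by simp
            rw [e, sub_add_cancel]
            exact hadj
          · have := he j (by omega)
            have e : a - 1 + ((j + 1 : ℕ) : ZMod n) = a + (j : ZMod n) := by
              push_cast
              ring
            rw [e]
            exact this
      · have hkk : k = n - 1 := by omega
        subst hkk
        exact no_wrap hn hH.isAcyclic a hv he
    -- the edge after `a + k` is missing, if it exists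
    have hB : k < n - 1 → ¬ H.Adj (Sum.inl (a + (k : ZMod n))) (Sum.inl (a + (k : ZMod n) + 1)) := by
      intro hlt hadj
      apply hmax (k + 1) (by omega) (by omega)
      refine ⟨a, ?_, ?_⟩
      · intro j hj
        rcases Nat.lt_or_ge k j with h1 | h1
        · obtain rfl : j = k + 1 := by omega
          have := H.edge_vert hadj.symm
          push_cast
          rw [← add_assoc]
          exact this
        · exact hv j h1
      · intro j hj
        rcases Nat.lt_or_ge j k with h1 | h1
        · exact he j h1
        · obtain rfl : j = k := by omega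
          exact hadj
    -- edges upwards
    have hup : ∀ i : ZMod n, pos a i ≤ k → H.Adj (Sum.inl i) (Sum.inl (i + 1)) →
        pos a (i + 1) = pos a i + 1 ∧ pos a (i + 1) ≤ k := by
      intro i hi hadj
      have hlt : pos a i < k := by
        by_contra hcon
        have hik : pos a i = k := by omega
        have hia : i = a + (k : ZMod n) := by rw [← hik, add_pos_cast]
        rcases Nat.lt_or_ge k (n - 1) with hlt | hge
        · rw [hia] at hadj
          exact hB hlt hadj
        · have hw : i + 1 = a := pos_wrap (by omega)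
          have hi' : i = a - 1 := by rw [← hw]; ring
          rw [hw, hi'] at hadj
          exact hA hadj
      have h1 : pos a (i + 1) = pos a i + 1 := pos_succ (by omega)
      exact ⟨h1, by omega⟩
    have hstep : ∀ i j : ZMod n, pos a i ≤ k → H.Adj (Sum.inl i) (Sum.inl j) →
        (pos a j = pos a i + 1 ∧ pos a j ≤ k) ∨ (pos a i = pos a j + 1 ∧ pos a i ≤ k) := by
      intro i j hi hadj
      have hG : i ≠ j ∧ (j = i + 1 ∨ i = j + 1) := hadj.adj_sub
      rcases hG.2 with hj | hj
      · subst hj
        exact Or.inl (hup i hi hadj)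
      · right
        subst hj
        have hpos : 0 < pos a (j + 1) := by
          rcases Nat.eq_zero_or_pos (pos a (j + 1)) with h0 | h0
          · exfalso
            have h1 := pos_eq_zero h0
            have h2 : j = a - 1 := by rw [← h1]; ring
            rw [h1, h2] at hadj
            exact hA hadj.symm
          · exact h0
        have h1 := pos_pred hpos
        rw [add_sub_cancel_right] at h1
        exact ⟨h1.symm, hi⟩
    have hleaf : ∀ i l, H.Adj (Sum.inl i) (Sum.inr l) → h l = i := fun i l hadj => hadj.adj_sub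
    have hsub : H.verts ⊆ {v | match v with
        | Sum.inl i => pos a i ≤ k
        | Sum.inr l => pos a (h l) ≤ k} := by
      refine verts_subset_of_closed hpre _ ?_ (v₀ := Sum.inl a) ?_ hav
      · rintro (i | l) (j | m) hv' hadj
        · have hi : pos a i ≤ k := hv'
          rcases hstep i j hi hadj with h1 | h1
          · exact h1.2
          · show pos a j ≤ k
            omega
        · have hi : pos a i ≤ k := hv'
          show pos a (h m) ≤ k
          rw [hleaf i m hadj]
          exact hi
        · have hi : pos a (h l) ≤ k := hv'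
          show pos a j ≤ k
          rw [← hleaf j l hadj.symm]
          exact hi
        · exact hadj.adj_sub.elim
      · show pos a a ≤ k
        rw [pos_self]
        omega
    have hS : ∀ l ∈ Finset.univ.filter (fun l : Λ => (Sum.inr l : ZMod n ⊕ Λ) ∈ H.verts),
        pos a (h l) ≤ k := by
      intro l hl
      rw [Finset.mem_filter] at hl
      exact hsub hl.2
    have hleafadj : ∀ l : Λ, (Sum.inr l : ZMod n ⊕ Λ) ∈ H.verts →
        H.Adj (Sum.inl (h l)) (Sum.inr l) := by
      intro l hl
      by_contra hcon
      have : H.verts ⊆ {Sum.inr l} := by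
        refine verts_subset_of_closed hpre _ ?_ (Set.mem_singleton _) hl
        intro v w hv' hadj
        exfalso
        rw [Set.mem_singleton_iff] at hv'
        subst hv'
        rcases w with j | m
        · have e := hleaf j l hadj.symm
          rw [← e] at hadj
          exact hcon hadj.symm
        · exact hadj.adj_sub.elim
      have h1 := this hav
      simp at h1
    have hcv : ∀ i : ZMod n, pos a i ≤ k → (Sum.inl i : ZMod n ⊕ Λ) ∈ H.verts := by
      intro i hi
      have := hv (pos a i) hi
      rwa [add_pos_cast] at this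
    have hce : ∀ i j : ZMod n, pos a j = pos a i + 1 → pos a j ≤ k →
        H.Adj (Sum.inl i) (Sum.inl j) := by
      intro i j h1 h2
      have := he (pos a i) (by omega)
      rw [add_pos_cast] at this
      have e : j = i + 1 := by
        apply pos_inj (a := a)
        rw [pos_succ (by have := pos_lt a j; omega), h1]
      rw [e]
      exact this
    refine ⟨a, k, hk, _, hS, ?_⟩
    apply Subgraph.ext
    · ext v
      rcases v with i | l
      · exact ⟨fun h1 => hsub h1, fun h1 => hcv i h1⟩
      · show (Sum.inr l : ZMod n ⊕ Λ) ∈ H.verts ↔ l ∈ Finset.univ.filter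
          (fun l : Λ => (Sum.inr l : ZMod n ⊕ Λ) ∈ H.verts)
        simp
    · ext v w
      rcases v with i | l
      · rcases w with j | m
        · constructor
          · intro h1
            exact hstep i j (hsub (H.edge_vert h1)) h1
          · rintro (h1 | h1)
            · exact hce i j h1.1 h1.2
            · exact (hce j i h1.1 h1.2).symm
        · constructor
          · intro h1
            refine ⟨hleaf i m h1, ?_⟩
            rw [Finset.mem_filter]
            exact ⟨Finset.mem_univ _, H.edge_vert h1.symm⟩
          · rintro ⟨h1, h2⟩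
            rw [Finset.mem_filter] at h2
            rw [← h1]
            exact hleafadj m h2.2
      · rcases w with j | m
        · constructor
          · intro h1
            refine ⟨hleaf j l h1.symm, ?_⟩
            rw [Finset.mem_filter]
            exact ⟨Finset.mem_univ _, H.edge_vert h1⟩
          · rintro ⟨h1, h2⟩
            rw [Finset.mem_filter] at h2
            rw [← h1]
            exact (hleafadj l h2.2).symm
        · constructor
          · intro h1
            exact h1.adj_sub.elim
          · intro h1
            exact h1.elim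

/-- Different parameters give different subtrees. -/
theorem sub_inj {a a' : ZMod n} {k k' : ℕ} {hk : k < n} {hk' : k' < n} {S S' : Finset Λ}
    {hS : ∀ l ∈ S, pos a (h l) ≤ k} {hS' : ∀ l ∈ S', pos a' (h l) ≤ k'}
    (hn : 3 ≤ n) (heq : sub h a k hk S hS = sub h a' k' hk' S' hS') :
    a = a' ∧ k = k' ∧ S = S' := by
  have hverts : ∀ v, v ∈ (sub h a k hk S hS).verts ↔ v ∈ (sub h a' k' hk' S' hS').verts := by
    intro v
    rw [heq]
  have hvi : ∀ i, pos a i ≤ k ↔ pos a' i ≤ k' := fun i => hverts (Sum.inl i)
  have hvl : ∀ l, l ∈ S ↔ l ∈ S' := fun l => hverts (Sum.inr l)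
  have haa : a = a' := by
    apply pos_eq_zero (a := a')
    by_contra hne
    have hp : 0 < pos a' a := Nat.pos_of_ne_zero hne
    have h1 : pos a' a ≤ k' := (hvi a).mp (by rw [pos_self]; omega)
    have h2 := pos_pred hp
    have h3 : (sub h a' k' hk' S' hS').Adj (Sum.inl (a - 1)) (Sum.inl a) := by
      left
      exact ⟨h2.symm, h1⟩
    rw [← heq] at h3
    have e : pos a (a - 1) = n - 1 := by
      have e1 : a - 1 = a + ((n - 1 : ℕ) : ZMod n) := by
        rw [Nat.cast_sub (by omega)]
        simp
        ring
      rw [e1, pos_add_cast a (by omega)]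
    rcases h3 with h3 | h3
    · rw [pos_self, e] at h3
      omega
    · rw [pos_self, e] at h3
      omega
  subst haa
  refine ⟨rfl, ?_, Finset.ext hvl⟩
  have h1 := hvi (a + (k : ZMod n))
  have h2 := hvi (a + (k' : ZMod n))
  rw [pos_add_cast a hk] at h1
  rw [pos_add_cast a hk'] at h2
  omega

end

end Pool.Agent.Lib.MP_e83d06_co
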