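import Mathlib
import Pool.Agent.Lib.MP_e83d06_co.Leafy

set_option autoImplicit false

namespace Pool.Agent.Lib.MP_e83d06_co

theorem sum_zmod {n : ℕ} [NeZero n] (F : ZMod n → ℝ) :
    ∑ a, F a = ∑ i ∈ Finset.range n, F (-(i : ZMod n)) := by
  refine Finset.sum_nbij' (fun a => (-a).val) (fun i => -(i : ZMod n)) ?_ ?_ ?_ ?_ ?_
  · intro a _
    exact Finset.mem_range.mpr (ZMod.val_lt _)
  · intro i _
    exact Finset.mem_univ _
  · intro a _
    simp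
  · intro i hi
    simp only [neg_neg]
    exact ZMod.val_cast_of_lt (Finset.mem_range.mp hi)
  · intro a _
    simp

theorem pos_neg_cast {n : ℕ} [NeZero n] (i x : ℕ) :
    pos (-(i : ZMod n)) (x : ZMod n) = (x + i) % n := by
  simp only [pos, sub_neg_eq_add]
  rw [← Nat.cast_add, ZMod.val_natCast]

theorem inner1 (n M : ℕ) (hM : M ≤ n) :
    ∑ k : Fin n, (if M ≤ (k : ℕ) then (1 : ℝ) else 0) = n - M := by
  rw [Fin.sum_univ_eq_sum_range (fun k => if M ≤ k then (1 : ℝ) else 0)]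
  induction n, hM using Nat.le_induction with
  | base =>
    rw [sub_self]
    refine Finset.sum_eq_zero fun k hk => ?_
    rw [Finset.mem_range] at hk
    rw [if_neg (by omega)]
  | succ n hn ih =>
    rw [Finset.sum_range_succ, ih, if_pos hn]
    push_cast
    ring

theorem inner2 (n M : ℕ) (hM : M ≤ n) :
    ∑ k : Fin n, (if M ≤ (k : ℕ) then (((k : ℕ) : ℝ) + 1) else 0)
      = ((n : ℝ) * (n + 1) - M * (M + 1)) / 2 := by
  rw [Fin.sum_univ_eq_sum_range (fun k => if M ≤ k then ((k : ℝ) + 1) else 0)]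
  induction n, hM using Nat.le_induction with
  | base =>
    rw [sub_self, zero_div]
    refine Finset.sum_eq_zero fun k hk => ?_
    rw [Finset.mem_range] at hk
    rw [if_neg (by omega)]
  | succ n hn ih =>
    rw [Finset.sum_range_succ, ih, if_pos hn]
    push_cast
    ring

theorem quad (m : ℕ) (α β γ : ℝ) :
    ∑ j ∈ Finset.range m, (α + β * j + γ * (j : ℝ) ^ 2)
      = α * m + β * (m * (m - 1) / 2) + γ * ((m - 1) * m * (2 * m - 1) / 6) := by
  induction m with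
  | zero => simp
  | succ m ih =>
    rw [Finset.sum_range_succ, ih]
    push_cast
    ring

theorem split3 (q : ℕ) (H : ℕ → ℝ) :
    ∑ i ∈ Finset.range (8 * q + 1), H i = ∑ i ∈ Finset.range (6 * q + 1), H i
      + ∑ j ∈ Finset.range q, H (6 * q + 1 + j) + ∑ j ∈ Finset.range q, H (7 * q + 1 + j) := by
  have e1 : 8 * q + 1 = 6 * q + 1 + (q + q) := by ring
  have e2 : ∀ j, 6 * q + 1 + (q + j) = 7 * q + 1 + j := fun j => by ring
  rw [e1, Finset.sum_range_add H (6 * q + 1) (q + q),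
    Finset.sum_range_add (fun x => H (6 * q + 1 + x)) q q, ← add_assoc]
  simp only [e2]

/-- The smallest `k` such that the arc from `-i` contains `0` and `2q`. -/
def M0 (q i : ℕ) : ℕ := if i < 6 * q + 1 then 2 * q + i else i

/-- The smallest `k` such that the arc from `-i` contains `0`, `q` and `2q`. -/
def M1 (q i : ℕ) : ℕ := if i < 6 * q + 1 then 2 * q + i else if i < 7 * q + 1 then q + i else i

theorem M0_iff {q i k : ℕ} (hi : i < 8 * q + 1) (hk : k < 8 * q + 1) :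
    (i % (8 * q + 1) ≤ k ∧ (2 * q + i) % (8 * q + 1) ≤ k) ↔ M0 q i ≤ k := by
  rw [Nat.mod_eq_of_lt hi]
  unfold M0
  split_ifs with h
  · rw [Nat.mod_eq_of_lt (by omega)]
    omega
  · have : (2 * q + i) % (8 * q + 1) = 2 * q + i - (8 * q + 1) := by
      rw [Nat.mod_eq_sub_mod (by omega), Nat.mod_eq_of_lt (by omega)]
    rw [this]
    omega

theorem M1_iff {q i k : ℕ} (hi : i < 8 * q + 1) (hk : k < 8 * q + 1) :
    ((i % (8 * q + 1) ≤ k ∧ (2 * q + i) % (8 * q + 1) ≤ k) ∧ (q + i) % (8 * q + 1) ≤ k)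
      ↔ M1 q i ≤ k := by
  rw [M0_iff hi hk]
  unfold M0 M1
  split_ifs with h h'
  · rw [Nat.mod_eq_of_lt (by omega)]
    omega
  · rw [Nat.mod_eq_of_lt (by omega)]
    omega
  · have : (q + i) % (8 * q + 1) = q + i - (8 * q + 1) := by
      rw [Nat.mod_eq_sub_mod (by omega), Nat.mod_eq_of_lt (by omega)]
    rw [this]
    omega

theorem M0_le {q i : ℕ} (hi : i < 8 * q + 1) : M0 q i ≤ 8 * q + 1 := by
  unfold M0
  split_ifs <;> omega

theorem M1_le {q i : ℕ} (hi : i < 8 * q + 1) : M1 q i ≤ 8 * q + 1 := by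
  unfold M1
  split_ifs <;> omega

theorem sumN0 (q : ℕ) :
    ∑ i ∈ Finset.range (8 * q + 1), (((8 * q + 1 : ℕ) : ℝ) - M0 q i) = 20 * (q : ℝ) ^ 2 + 10 * q + 1 := by
  rw [split3]
  have h1 : ∑ i ∈ Finset.range (6 * q + 1), (((8 * q + 1 : ℕ) : ℝ) - M0 q i)
      = ∑ i ∈ Finset.range (6 * q + 1), ((6 * (q : ℝ) + 1) + (-1) * i + 0 * (i : ℝ) ^ 2) := by
    refine Finset.sum_congr rfl fun i hi => ?_
    rw [Finset.mem_range] at hi
    rw [M0, if_pos hi]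
    push_cast
    ring
  have h2 : ∑ j ∈ Finset.range q, (((8 * q + 1 : ℕ) : ℝ) - M0 q (6 * q + 1 + j))
      = ∑ j ∈ Finset.range q, ((2 * (q : ℝ)) + (-1) * j + 0 * (j : ℝ) ^ 2) := by
    refine Finset.sum_congr rfl fun j hj => ?_
    rw [M0, if_neg (by omega)]
    push_cast
    ring
  have h3 : ∑ j ∈ Finset.range q, (((8 * q + 1 : ℕ) : ℝ) - M0 q (7 * q + 1 + j))
      = ∑ j ∈ Finset.range q, ((q : ℝ) + (-1) * j + 0 * (j : ℝ) ^ 2) := by
    refine Finset.sum_congr rfl fun j hj => ?_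
    rw [M0, if_neg (by omega)]
    push_cast
    ring
  rw [h1, h2, h3, quad, quad, quad]
  push_cast
  ring

theorem sumN1 (q : ℕ) :
    ∑ i ∈ Finset.range (8 * q + 1), (((8 * q + 1 : ℕ) : ℝ) - M1 q i) = 19 * (q : ℝ) ^ 2 + 10 * q + 1 := by
  rw [split3]
  have h1 : ∑ i ∈ Finset.range (6 * q + 1), (((8 * q + 1 : ℕ) : ℝ) - M1 q i)
      = ∑ i ∈ Finset.range (6 * q + 1), ((6 * (q : ℝ) + 1) + (-1) * i + 0 * (i : ℝ) ^ 2) := by
    refine Finset.sum_congr rfl fun i hi => ?_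
    rw [Finset.mem_range] at hi
    rw [M1, if_pos hi]
    push_cast
    ring
  have h2 : ∑ j ∈ Finset.range q, (((8 * q + 1 : ℕ) : ℝ) - M1 q (6 * q + 1 + j))
      = ∑ j ∈ Finset.range q, (((q : ℝ)) + (-1) * j + 0 * (j : ℝ) ^ 2) := by
    refine Finset.sum_congr rfl fun j hj => ?_
    rw [Finset.mem_range] at hj
    rw [M1, if_neg (by omega), if_pos (by omega)]
    push_cast
    ring
  have h3 : ∑ j ∈ Finset.range q, (((8 * q + 1 : ℕ) : ℝ) - M1 q (7 * q + 1 + j))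
      = ∑ j ∈ Finset.range q, ((q : ℝ) + (-1) * j + 0 * (j : ℝ) ^ 2) := by
    refine Finset.sum_congr rfl fun j hj => ?_
    rw [M1, if_neg (by omega), if_neg (by omega)]
    push_cast
    ring
  rw [h1, h2, h3, quad, quad]
  push_cast
  ring

theorem sumT0 (q : ℕ) :
    ∑ i ∈ Finset.range (8 * q + 1), (((8 * q + 1 : ℕ) : ℝ) * (((8 * q + 1 : ℕ) : ℝ) + 1)
      - M0 q i * (M0 q i + 1)) / 2
      = 368 / 3 * (q : ℝ) ^ 3 + 82 * (q : ℝ) ^ 2 + 49 / 3 * q + 1 := by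
  rw [split3]
  have h1 : ∑ i ∈ Finset.range (6 * q + 1), (((8 * q + 1 : ℕ) : ℝ) * (((8 * q + 1 : ℕ) : ℝ) + 1)
      - M0 q i * (M0 q i + 1)) / 2
      = ∑ i ∈ Finset.range (6 * q + 1), (((8 * (q : ℝ) + 1) * (8 * q + 2) - 2 * q * (2 * q + 1)) / 2
        + (-(4 * (q : ℝ) + 1) / 2) * i + (-1 / 2) * (i : ℝ) ^ 2) := by
    refine Finset.sum_congr rfl fun i hi => ?_
    rw [Finset.mem_range] at hi
    rw [M0, if_pos hi]
    push_cast
    ring
  have h2 : ∑ j ∈ Finset.range q, (((8 * q + 1 : ℕ) : ℝ) * (((8 * q + 1 : ℕ) : ℝ) + 1)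
      - M0 q (6 * q + 1 + j) * (M0 q (6 * q + 1 + j) + 1)) / 2
      = ∑ j ∈ Finset.range q, (((8 * (q : ℝ) + 1) * (8 * q + 2) - (6 * q + 1) * (6 * q + 2)) / 2
        + (-(12 * (q : ℝ) + 3) / 2) * j + (-1 / 2) * (j : ℝ) ^ 2) := by
    refine Finset.sum_congr rfl fun j hj => ?_
    rw [M0, if_neg (by omega)]
    push_cast
    ring
  have h3 : ∑ j ∈ Finset.range q, (((8 * q + 1 : ℕ) : ℝ) * (((8 * q + 1 : ℕ) : ℝ) + 1)
      - M0 q (7 * q + 1 + j) * (M0 q (7 * q + 1 + j) + 1)) / 2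
      = ∑ j ∈ Finset.range q, (((8 * (q : ℝ) + 1) * (8 * q + 2) - (7 * q + 1) * (7 * q + 2)) / 2
        + (-(14 * (q : ℝ) + 3) / 2) * j + (-1 / 2) * (j : ℝ) ^ 2) := by
    refine Finset.sum_congr rfl fun j hj => ?_
    rw [M0, if_neg (by omega)]
    push_cast
    ring
  rw [h1, h2, h3, quad, quad, quad]
  push_cast
  ring

theorem sumT1 (q : ℕ) :
    ∑ i ∈ Finset.range (8 * q + 1), (((8 * q + 1 : ℕ) : ℝ) * (((8 * q + 1 : ℕ) : ℝ) + 1)
      - M1 q i * (M1 q i + 1)) / 2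
      = 347 / 3 * (q : ℝ) ^ 3 + 81 * (q : ℝ) ^ 2 + 49 / 3 * q + 1 := by
  rw [split3]
  have h1 : ∑ i ∈ Finset.range (6 * q + 1), (((8 * q + 1 : ℕ) : ℝ) * (((8 * q + 1 : ℕ) : ℝ) + 1)
      - M1 q i * (M1 q i + 1)) / 2
      = ∑ i ∈ Finset.range (6 * q + 1), (((8 * (q : ℝ) + 1) * (8 * q + 2) - 2 * q * (2 * q + 1)) / 2
        + (-(4 * (q : ℝ) + 1) / 2) * i + (-1 / 2) * (i : ℝ) ^ 2) := by
    refine Finset.sum_congr rfl fun i hi => ?_
    rw [Finset.mem_range] at hi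
    rw [M1, if_pos hi]
    push_cast
    ring
  have h2 : ∑ j ∈ Finset.range q, (((8 * q + 1 : ℕ) : ℝ) * (((8 * q + 1 : ℕ) : ℝ) + 1)
      - M1 q (6 * q + 1 + j) * (M1 q (6 * q + 1 + j) + 1)) / 2
      = ∑ j ∈ Finset.range q, (((8 * (q : ℝ) + 1) * (8 * q + 2) - (7 * q + 1) * (7 * q + 2)) / 2
        + (-(14 * (q : ℝ) + 3) / 2) * j + (-1 / 2) * (j : ℝ) ^ 2) := by
    refine Finset.sum_congr rfl fun j hj => ?_
    rw [Finset.mem_range] at hj
    rw [M1, if_neg (by omega), if_pos (by omega)]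
    push_cast
    ring
  have h3 : ∑ j ∈ Finset.range q, (((8 * q + 1 : ℕ) : ℝ) * (((8 * q + 1 : ℕ) : ℝ) + 1)
      - M1 q (7 * q + 1 + j) * (M1 q (7 * q + 1 + j) + 1)) / 2
      = ∑ j ∈ Finset.range q, (((8 * (q : ℝ) + 1) * (8 * q + 2) - (7 * q + 1) * (7 * q + 2)) / 2
        + (-(14 * (q : ℝ) + 3) / 2) * j + (-1 / 2) * (j : ℝ) ^ 2) := by
    refine Finset.sum_congr rfl fun j hj => ?_
    rw [M1, if_neg (by omega), if_neg (by omega)]
    push_cast
    ring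
  rw [h1, h2, h3, quad, quad]
  push_cast
  ring

end Pool.Agent.Lib.MP_e83d06_co
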