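import Mathlib
import Pool.Agent.Lib.MP_e83d06_co.Leafy

set_option autoImplicit false
set_option linter.unusedSectionVars false

namespace Pool.Agent.Lib.MP_e83d06_co

open SimpleGraph

variable {n : ℕ} [NeZero n] {Λ : Type*} [Fintype Λ]

/-- Pendant vertices attached to the arc of length `k + 1` starting at `a`. -/
def att (h : Λ → ZMod n) (p : ZMod n × Fin n) : Finset Λ :=
  Finset.univ.filter (fun l => pos p.1 (h l) ≤ p.2)

theorem mem_att {h : Λ → ZMod n} {p : ZMod n × Fin n} {l : Λ} :
    l ∈ att h p ↔ pos p.1 (h l) ≤ p.2 := by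
  simp [att]

theorem le_of_mem_powerset_att {h : Λ → ZMod n} {p : ZMod n × Fin n} (S : (att h p).powerset) :
    ∀ l ∈ S.1, pos p.1 (h l) ≤ p.2 := by
  intro l hl
  rw [← mem_att]
  exact Finset.mem_powerset.mp S.2 hl

/-- The subtree with given description. -/
def descr (h : Λ → ZMod n) : (Λ ⊕ (Σ p : ZMod n × Fin n, (att h p).powerset)) →
    {H : (LC n h).Subgraph // H.coe.IsTree}
  | Sum.inl l => ⟨(LC n h).singletonSubgraph (Sum.inr l), IsTree.coe_singletonSubgraph _ _⟩
  | Sum.inr ⟨p, S⟩ => ⟨sub h p.1 p.2 p.2.isLt S.1 (le_of_mem_powerset_att S), sub_isTree _ _ _ _ _⟩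

theorem inl_mem_sub {h : Λ → ZMod n} {a : ZMod n} {k : ℕ} {hk : k < n} {S : Finset Λ}
    {hS : ∀ l ∈ S, pos a (h l) ≤ k} : (Sum.inl a : ZMod n ⊕ Λ) ∈ (sub h a k hk S hS).verts := by
  show pos a a ≤ k
  rw [pos_self]
  omega

theorem descr_bijective (hn : 3 ≤ n) (h : Λ → ZMod n) : Function.Bijective (descr h) := by
  constructor
  · rintro (l | ⟨p, S⟩) (l' | ⟨p', S'⟩) heq
    · have h1 := congrArg (fun H => H.1.verts) heq
      have h2 : (Sum.inr l : ZMod n ⊕ Λ) ∈ ((LC n h).singletonSubgraph (Sum.inr l')).verts := by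
        have h3 : (Sum.inr l : ZMod n ⊕ Λ) ∈ ((LC n h).singletonSubgraph (Sum.inr l)).verts := rfl
        exact h1 ▸ h3
      have h4 : (Sum.inr l : ZMod n ⊕ Λ) = Sum.inr l' := h2
      rw [Sum.inr_injective h4]
    · exfalso
      have h1 := congrArg (fun H => H.1.verts) heq
      have h3 : (Sum.inl p'.1 : ZMod n ⊕ Λ) ∈ ((LC n h).singletonSubgraph (Sum.inr l)).verts := by
        have h4 : (Sum.inl p'.1 : ZMod n ⊕ Λ) ∈
          (sub h p'.1 p'.2 p'.2.isLt S'.1 (le_of_mem_powerset_att S')).verts := inl_mem_sub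
        exact h1 ▸ h4
      have h5 : (Sum.inl p'.1 : ZMod n ⊕ Λ) = Sum.inr l := h3
      cases h5
    · exfalso
      have h1 := congrArg (fun H => H.1.verts) heq
      have h3 : (Sum.inl p.1 : ZMod n ⊕ Λ) ∈ ((LC n h).singletonSubgraph (Sum.inr l')).verts := by
        have h4 : (Sum.inl p.1 : ZMod n ⊕ Λ) ∈
          (sub h p.1 p.2 p.2.isLt S.1 (le_of_mem_powerset_att S)).verts := inl_mem_sub
        exact h1 ▸ h4
      have h5 : (Sum.inl p.1 : ZMod n ⊕ Λ) = Sum.inr l' := h3
      cases h5
    · have h1 : sub h p.1 p.2 p.2.isLt S.1 (le_of_mem_powerset_att S)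
          = sub h p'.1 p'.2 p'.2.isLt S'.1 (le_of_mem_powerset_att S') := congrArg Subtype.val heq
      obtain ⟨e1, e2, e3⟩ := sub_inj hn h1
      have e : p = p' := Prod.ext e1 (Fin.ext e2)
      subst e
      have e' : S = S' := Subtype.ext e3
      rw [e']
  · rintro ⟨H, hH⟩
    rcases exists_sub hn hH with ⟨l, hl⟩ | ⟨a, k, hk, S, hS, hsub⟩
    · exact ⟨Sum.inl l, Subtype.ext hl.symm⟩
    · refine ⟨Sum.inr ⟨(a, ⟨k, hk⟩), ⟨S, ?_⟩⟩, Subtype.ext hsub.symm⟩
      rw [Finset.mem_powerset]
      intro l hl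
      rw [mem_att]
      exact hS l hl

theorem ncard_sub {h : Λ → ZMod n} {a : ZMod n} {k : ℕ} {hk : k < n} {S : Finset Λ}
    {hS : ∀ l ∈ S, pos a (h l) ≤ k} : (sub h a k hk S hS).verts.ncard = k + 1 + S.card := by
  classical
  have h1 : (sub h a k hk S hS).verts
      = ((((Finset.range (k + 1)).image (fun m : ℕ => a + (m : ZMod n))).disjSum S :
        Finset (ZMod n ⊕ Λ)) : Set (ZMod n ⊕ Λ)) := by
    ext v
    rcases v with i | l
    · simp only [Finset.mem_coe, Finset.inl_mem_disjSum, Finset.mem_image, Finset.mem_range]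
      constructor
      · intro hi
        have hi' : pos a i ≤ k := hi
        exact ⟨pos a i, by omega, add_pos_cast a i⟩
      · rintro ⟨m, hm, rfl⟩
        show pos a (a + (m : ZMod n)) ≤ k
        rw [pos_add_cast a (by omega)]
        omega
    · simp only [Finset.mem_coe, Finset.inr_mem_disjSum]
      rfl
  rw [h1, Set.ncard_coe_finset, Finset.card_disjSum, Finset.card_image_of_injOn,
    Finset.card_range]
  intro m hm m' hm' heq
  simp only [Finset.coe_range, Set.mem_Iio] at hm hm'
  simp only at heq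
  have e1 := pos_add_cast a (m := m) (by omega)
  have e2 := pos_add_cast a (m := m') (by omega)
  rw [← e1, heq, e2]

theorem sum_powerset_aux {α : Type*} (M : Finset α) (c : ℝ) :
    ∑ S ∈ M.powerset, (c + S.card) = 2 ^ M.card * (c + M.card / 2) := by
  classical
  induction M using Finset.induction_on generalizing c with
  | empty => simp
  | insert x M hx ih =>
    rw [Finset.sum_powerset_insert hx, ih]
    have : ∑ t ∈ M.powerset, (c + ((insert x t).card : ℝ)) = ∑ t ∈ M.powerset, ((c + 1) + t.card) := by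
      refine Finset.sum_congr rfl fun t ht => ?_
      rw [Finset.card_insert_of_notMem (fun h => hx (Finset.mem_powerset.mp ht h))]
      push_cast
      ring
    rw [this, ih, Finset.card_insert_of_notMem hx]
    push_cast
    rw [pow_succ]
    ring

/-- The mean subtree order of a leafy cycle. -/
theorem mean_LC (hn : 3 ≤ n) (h : Λ → ZMod n) :
    meanSubtreeOrder (LC n h)
      = (Fintype.card Λ + ∑ p : ZMod n × Fin n,
          2 ^ (att h p).card * (((p.2 : ℕ) : ℝ) + 1 + (att h p).card / 2)) /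
        (Fintype.card Λ + ∑ p : ZMod n × Fin n, (2 : ℝ) ^ (att h p).card) := by
  classical
  rw [mean_eq (Equiv.ofBijective (descr h) (descr_bijective hn h))]
  congr 1
  · rw [Fintype.sum_sum_type]
    congr 1
    · rw [Finset.sum_congr rfl (g := fun _ => (1 : ℝ))]
      · simp
      · intro l _
        have : ((Equiv.ofBijective (descr h) (descr_bijective hn h)) (Sum.inl l)).1.verts
            = {Sum.inr l} := rfl
        rw [this]
        simp
    · rw [Fintype.sum_sigma]
      refine Finset.sum_congr rfl fun p _ => ?_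
      rw [← sum_powerset_aux, ← Finset.sum_coe_sort ((att h p).powerset)
        (fun S => ((p.2 : ℕ) : ℝ) + 1 + S.card)]
      refine Finset.sum_congr rfl fun S _ => ?_
      have : ((Equiv.ofBijective (descr h) (descr_bijective hn h)) (Sum.inr ⟨p, S⟩)).1
          = sub h p.1 p.2 p.2.isLt S.1 (le_of_mem_powerset_att S) := rfl
      rw [this, ncard_sub]
      push_cast
      ring
  · rw [Fintype.card_sum, Fintype.card_sigma]
    push_cast
    congr 1
    refine Finset.sum_congr rfl fun p _ => ?_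
    rw [Fintype.card_coe, Finset.card_powerset]
    push_cast
    rfl

end Pool.Agent.Lib.MP_e83d06_co
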