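import Mathlib

set_option autoImplicit false

namespace Pool.Agent.Lib.MP_e83d06_co

open Filter Topology

theorem term_zero (c K : ℝ) : Tendsto (fun s : ℕ => c * (K - s) / 4 ^ s) atTop (𝓝 0) := by
  have h1 : Tendsto (fun s : ℕ => ((1 / 4 : ℝ)) ^ s) atTop (𝓝 0) :=
    tendsto_pow_atTop_nhds_zero_of_lt_one (by norm_num) (by norm_num)
  have h2 : Tendsto (fun s : ℕ => (s : ℝ) * ((1 / 4 : ℝ)) ^ s) atTop (𝓝 0) :=
    tendsto_self_mul_const_pow_of_lt_one (by norm_num) (by norm_num)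
  have h3 := (h1.const_mul (c * K)).sub (h2.const_mul c)
  rw [mul_zero, mul_zero, sub_zero] at h3
  refine h3.congr fun s => ?_
  rw [one_div, inv_pow]
  ring

theorem term_one (c K : ℝ) : Tendsto (fun s : ℕ => 2 ^ s * c * (K - s / 2) / 4 ^ s) atTop (𝓝 0) := by
  have h1 : Tendsto (fun s : ℕ => ((1 / 2 : ℝ)) ^ s) atTop (𝓝 0) :=
    tendsto_pow_atTop_nhds_zero_of_lt_one (by norm_num) (by norm_num)
  have h2 : Tendsto (fun s : ℕ => (s : ℝ) * ((1 / 2 : ℝ)) ^ s) atTop (𝓝 0) :=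
    tendsto_self_mul_const_pow_of_lt_one (by norm_num) (by norm_num)
  have h3 := (h1.const_mul (c * K)).sub (h2.const_mul (c / 2))
  rw [mul_zero, mul_zero, sub_zero] at h3
  refine h3.congr fun s => ?_
  have h4 : (4 : ℝ) ^ s = 2 ^ s * 2 ^ s := by
    rw [← mul_pow]
    norm_num
  rw [one_div, inv_pow, h4]
  have : (2 : ℝ) ^ s ≠ 0 := by positivity
  field_simp

theorem four_pow (s : ℕ) : (4 : ℝ) ^ s = 2 ^ (s * 2) := by
  rw [mul_comm, pow_mul]
  norm_num

/-- Numerator terms. -/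
theorem term_tendsto (z c k : ℕ) (hz : z ≤ 2) :
    Tendsto (fun s : ℕ => (2 : ℝ) ^ (s * z + c) * (((k : ℝ) + 1 + c / 2) + s * ((z : ℝ) - 2) / 2)
      / 4 ^ s) atTop (𝓝 (if z = 2 then (2 : ℝ) ^ c * ((k : ℝ) + 1 + c / 2) else 0)) := by
  interval_cases z
  · rw [if_neg (by norm_num)]
    refine (term_zero ((2 : ℝ) ^ c) ((k : ℝ) + 1 + c / 2)).congr fun s => ?_
    simp only [mul_zero, zero_add, CharP.cast_eq_zero]
    ring
  · rw [if_neg (by norm_num)]
    refine (term_one ((2 : ℝ) ^ c) ((k : ℝ) + 1 + c / 2)).congr fun s => ?_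
    simp only [mul_one, Nat.cast_one, pow_add]
    ring
  · rw [if_pos rfl]
    refine tendsto_const_nhds.congr fun s => ?_
    rw [four_pow, pow_add]
    have : (2 : ℝ) ^ (s * 2) ≠ 0 := by positivity
    field_simp
    simp

/-- Denominator terms. -/
theorem term_tendsto' (z c : ℕ) (hz : z ≤ 2) :
    Tendsto (fun s : ℕ => (2 : ℝ) ^ (s * z + c) / 4 ^ s) atTop
      (𝓝 (if z = 2 then (2 : ℝ) ^ c else 0)) := by
  interval_cases z
  · rw [if_neg (by norm_num)]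
    have h1 : Tendsto (fun s : ℕ => ((1 / 4 : ℝ)) ^ s) atTop (𝓝 0) :=
      tendsto_pow_atTop_nhds_zero_of_lt_one (by norm_num) (by norm_num)
    have h2 := h1.const_mul ((2 : ℝ) ^ c)
    rw [mul_zero] at h2
    refine h2.congr fun s => ?_
    rw [one_div, inv_pow, mul_zero, zero_add, div_eq_mul_inv]
  · rw [if_neg (by norm_num)]
    have h1 : Tendsto (fun s : ℕ => ((1 / 2 : ℝ)) ^ s) atTop (𝓝 0) :=
      tendsto_pow_atTop_nhds_zero_of_lt_one (by norm_num) (by norm_num)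
    have h2 := h1.const_mul ((2 : ℝ) ^ c)
    rw [mul_zero] at h2
    refine h2.congr fun s => ?_
    have h4 : (4 : ℝ) ^ s = 2 ^ s * 2 ^ s := by
      rw [← mul_pow]
      norm_num
    rw [one_div, inv_pow, h4, mul_one, pow_add]
    have : (2 : ℝ) ^ s ≠ 0 := by positivity
    field_simp
  · rw [if_pos rfl]
    refine tendsto_const_nhds.congr fun s => ?_
    rw [four_pow, pow_add]
    have : (2 : ℝ) ^ (s * 2) ≠ 0 := by positivity
    field_simp

theorem extra_tendsto (e : ℝ) :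
    Tendsto (fun s : ℕ => (2 * (s : ℝ) + e) * (1 - s) / 4 ^ s) atTop (𝓝 0) := by
  have h1 : Tendsto (fun s : ℕ => ((1 / 4 : ℝ)) ^ s) atTop (𝓝 0) :=
    tendsto_pow_atTop_nhds_zero_of_lt_one (by norm_num) (by norm_num)
  have h2 : Tendsto (fun s : ℕ => (s : ℝ) * ((1 / 4 : ℝ)) ^ s) atTop (𝓝 0) :=
    tendsto_self_mul_const_pow_of_lt_one (by norm_num) (by norm_num)
  have h3 : Tendsto (fun s : ℕ => (s : ℝ) ^ 2 * ((1 / 4 : ℝ)) ^ s) atTop (𝓝 0) :=
    tendsto_pow_const_mul_const_pow_of_lt_one 2 (by norm_num) (by norm_num)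
  have h4 := ((h1.const_mul e).add (h2.const_mul (2 - e))).sub (h3.const_mul 2)
  simp only [mul_zero, sub_zero, add_zero] at h4
  refine h4.congr fun s => ?_
  rw [one_div, inv_pow]
  ring

theorem extra_tendsto' (e : ℝ) :
    Tendsto (fun s : ℕ => (2 * (s : ℝ) + e) / 4 ^ s) atTop (𝓝 0) := by
  have h1 : Tendsto (fun s : ℕ => ((1 / 4 : ℝ)) ^ s) atTop (𝓝 0) :=
    tendsto_pow_atTop_nhds_zero_of_lt_one (by norm_num) (by norm_num)
  have h2 : Tendsto (fun s : ℕ => (s : ℝ) * ((1 / 4 : ℝ)) ^ s) atTop (𝓝 0) :=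
    tendsto_self_mul_const_pow_of_lt_one (by norm_num) (by norm_num)
  have h4 := ((h1.const_mul e).add (h2.const_mul 2))
  simp only [mul_zero, add_zero] at h4
  refine h4.congr fun s => ?_
  rw [one_div, inv_pow]
  ring

/-- The limit of the shifted means as the number of pendant vertices at the two hubs grows. -/
theorem mean_tendsto {P : Type*} [Fintype P] (z c k : P → ℕ) (hz : ∀ p, z p ≤ 2)
    (hpos : ∃ p, z p = 2) (e : ℕ) :
    Tendsto (fun s : ℕ =>
      ((2 * (s : ℝ) + e) + ∑ p, (2 : ℝ) ^ (s * z p + c p) * ((k p : ℝ) + 1 +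
        ((s * z p + c p : ℕ) : ℝ) / 2)) /
      ((2 * (s : ℝ) + e) + ∑ p, (2 : ℝ) ^ (s * z p + c p)) - s) atTop
      (𝓝 ((∑ p, if z p = 2 then (2 : ℝ) ^ c p * ((k p : ℝ) + 1 + c p / 2) else 0) /
        ∑ p, if z p = 2 then (2 : ℝ) ^ c p else 0)) := by
  have hA := (extra_tendsto e).add (tendsto_finsetSum Finset.univ
    (fun p _ => term_tendsto (z p) (c p) (k p) (hz p)))
  have hB := (extra_tendsto' e).add (tendsto_finsetSum Finset.univ
    (fun p _ => term_tendsto' (z p) (c p) (hz p)))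
  rw [zero_add] at hA hB
  have hne : (∑ p, if z p = 2 then (2 : ℝ) ^ c p else 0) ≠ 0 := by
    obtain ⟨p, hp⟩ := hpos
    apply ne_of_gt
    apply Finset.sum_pos'
    · intro i _
      split_ifs <;> positivity
    · exact ⟨p, Finset.mem_univ _, by rw [if_pos hp]; positivity⟩
  refine (hA.div hB hne).congr fun s => ?_
  have h4 : (4 : ℝ) ^ s ≠ 0 := by positivity
  have hden : (2 * (s : ℝ) + e) + ∑ p, (2 : ℝ) ^ (s * z p + c p) ≠ 0 := by
    obtain ⟨p, _⟩ := hpos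
    apply ne_of_gt
    have : 0 < ∑ p, (2 : ℝ) ^ (s * z p + c p) :=
      Finset.sum_pos (fun i _ => by positivity) ⟨p, Finset.mem_univ _⟩
    positivity
  have e1 : (2 * (s : ℝ) + e) * (1 - s) / 4 ^ s + ∑ p, (2 : ℝ) ^ (s * z p + c p) *
      (((k p : ℝ) + 1 + c p / 2) + s * ((z p : ℝ) - 2) / 2) / 4 ^ s
      = (((2 * (s : ℝ) + e) + ∑ p, (2 : ℝ) ^ (s * z p + c p) * ((k p : ℝ) + 1 +
        ((s * z p + c p : ℕ) : ℝ) / 2)) - s * ((2 * (s : ℝ) + e) +
        ∑ p, (2 : ℝ) ^ (s * z p + c p))) / 4 ^ s := by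
    rw [← Finset.sum_div, ← add_div]
    congr 1
    rw [mul_add, Finset.mul_sum, add_sub_add_comm, ← Finset.sum_sub_distrib]
    congr 1
    · ring
    · refine Finset.sum_congr rfl fun p _ => ?_
      push_cast
      ring
  have e2 : (2 * (s : ℝ) + e) / 4 ^ s + ∑ p, (2 : ℝ) ^ (s * z p + c p) / 4 ^ s
      = ((2 * (s : ℝ) + e) + ∑ p, (2 : ℝ) ^ (s * z p + c p)) / 4 ^ s := by
    rw [← Finset.sum_div, ← add_div]
  rw [Pi.div_apply, e1, e2, div_div_div_cancel_right₀ h4]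
  field_simp

end Pool.Agent.Lib.MP_e83d06_co
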