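import Mathlib
import Pool.Agent.Lib.MP_e83d06_co.Enum
import Pool.Agent.Lib.MP_e83d06_co.Limit
import Pool.Agent.Lib.MP_e83d06_co.Arcs

set_option autoImplicit false
set_option linter.unusedSectionVars false

namespace Pool.Agent.Lib.MP_e83d06_co

open SimpleGraph Filter Topology

/-- Attachment of `s` pendant vertices at `0` and `s` pendant vertices at `2q`. -/
def hub (q s : ℕ) : Fin s ⊕ Fin s → ZMod (8 * q + 1) :=
  Sum.elim (fun _ => ((0 : ℕ) : ZMod (8 * q + 1))) (fun _ => ((2 * q : ℕ) : ZMod (8 * q + 1)))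

/-- The same with one more pendant vertex at `q`. -/
def hub' (q s : ℕ) : Option (Fin s ⊕ Fin s) → ZMod (8 * q + 1) :=
  fun o => o.elim ((q : ℕ) : ZMod (8 * q + 1)) (hub q s)

/-- Number of hubs in an arc. -/
def zz (q : ℕ) (p : ZMod (8 * q + 1) × Fin (8 * q + 1)) : ℕ :=
  (if pos p.1 ((0 : ℕ) : ZMod (8 * q + 1)) ≤ p.2 then 1 else 0) +
    (if pos p.1 ((2 * q : ℕ) : ZMod (8 * q + 1)) ≤ p.2 then 1 else 0)

/-- Indicator of `q` in an arc. -/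
def cc (q : ℕ) (p : ZMod (8 * q + 1) × Fin (8 * q + 1)) : ℕ :=
  if pos p.1 ((q : ℕ) : ZMod (8 * q + 1)) ≤ p.2 then 1 else 0

theorem card_att_hub (q s : ℕ) (p : ZMod (8 * q + 1) × Fin (8 * q + 1)) :
    (att (hub q s) p).card = s * zz q p := by
  have e1 : ∀ l : Fin s, (if pos p.1 (hub q s (Sum.inl l)) ≤ (p.2 : ℕ) then 1 else 0)
      = (if pos p.1 ((0 : ℕ) : ZMod (8 * q + 1)) ≤ (p.2 : ℕ) then 1 else 0 : ℕ) :=
    fun _ => rfl
  have e2 : ∀ l : Fin s, (if pos p.1 (hub q s (Sum.inr l)) ≤ (p.2 : ℕ) then 1 else 0)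
      = (if pos p.1 ((2 * q : ℕ) : ZMod (8 * q + 1)) ≤ (p.2 : ℕ) then 1 else 0 : ℕ) :=
    fun _ => rfl
  unfold att zz
  rw [Finset.card_filter, Fintype.sum_sum_type, Finset.sum_congr rfl (fun l _ => e1 l),
    Finset.sum_congr rfl (fun l _ => e2 l), Finset.sum_const, Finset.sum_const,
    Finset.card_univ, Fintype.card_fin, smul_eq_mul, smul_eq_mul, mul_add]

theorem card_att_hub' (q s : ℕ) (p : ZMod (8 * q + 1) × Fin (8 * q + 1)) :
    (att (hub' q s) p).card = s * zz q p + cc q p := by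
  have h := card_att_hub q s p
  unfold att at h ⊢
  rw [Finset.card_filter] at h ⊢
  rw [Fintype.sum_option]
  have e1 : ∀ l, hub' q s (some l) = hub q s l := fun l => rfl
  have e2 : hub' q s none = ((q : ℕ) : ZMod (8 * q + 1)) := rfl
  simp only [e1, e2]
  rw [h, add_comm]
  rfl

theorem zz_le (q : ℕ) (p : ZMod (8 * q + 1) × Fin (8 * q + 1)) : zz q p ≤ 2 := by
  unfold zz
  split_ifs <;> omega

theorem zz_eq_two_iff (q : ℕ) (i : ℕ) (hi : i < 8 * q + 1) (k : Fin (8 * q + 1)) :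
    zz q (-(i : ZMod (8 * q + 1)), k) = 2 ↔ M0 q i ≤ (k : ℕ) := by
  rw [← M0_iff hi k.isLt]
  unfold zz
  simp only [pos_neg_cast, zero_add]
  split_ifs with h1 h2 h2 <;> simp [h1, h2]

theorem cc_iff (q : ℕ) (i : ℕ) (k : Fin (8 * q + 1)) :
    cc q (-(i : ZMod (8 * q + 1)), k) = if (q + i) % (8 * q + 1) ≤ (k : ℕ) then 1 else 0 := by
  unfold cc
  simp only [pos_neg_cast]

/-- Sums over arcs containing both hubs. -/
theorem sum_arc (q : ℕ) (f : ℕ → ℝ) :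
    (∑ p : ZMod (8 * q + 1) × Fin (8 * q + 1), if zz q p = 2 then f (p.2 : ℕ) else 0)
      = ∑ i ∈ Finset.range (8 * q + 1), ∑ k : Fin (8 * q + 1),
          if M0 q i ≤ (k : ℕ) then f k else 0 := by
  rw [Fintype.sum_prod_type, sum_zmod]
  refine Finset.sum_congr rfl fun i hi => ?_
  refine Finset.sum_congr rfl fun k _ => ?_
  rw [Finset.mem_range] at hi
  exact if_congr (zz_eq_two_iff q i hi k) rfl rfl

/-- Sums over arcs containing both hubs and `q`. -/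
theorem sum_arc' (q : ℕ) (f : ℕ → ℝ) :
    (∑ p : ZMod (8 * q + 1) × Fin (8 * q + 1),
        if zz q p = 2 ∧ cc q p = 1 then f (p.2 : ℕ) else 0)
      = ∑ i ∈ Finset.range (8 * q + 1), ∑ k : Fin (8 * q + 1),
          if M1 q i ≤ (k : ℕ) then f k else 0 := by
  rw [Fintype.sum_prod_type, sum_zmod]
  refine Finset.sum_congr rfl fun i hi => ?_
  refine Finset.sum_congr rfl fun k _ => ?_
  rw [Finset.mem_range] at hi
  refine if_congr ?_ rfl rfl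
  rw [zz_eq_two_iff q i hi k, cc_iff, ← M1_iff hi k.isLt, M0_iff hi k.isLt]
  refine and_congr Iff.rfl ?_
  split_ifs with h <;> simp [h]

theorem val_N0 (q : ℕ) :
    (∑ p : ZMod (8 * q + 1) × Fin (8 * q + 1), if zz q p = 2 then (1 : ℝ) else 0)
      = 20 * (q : ℝ) ^ 2 + 10 * q + 1 := by
  rw [sum_arc q (fun _ => 1), ← sumN0]
  refine Finset.sum_congr rfl fun i hi => ?_
  rw [Finset.mem_range] at hi
  exact inner1 _ _ (M0_le hi)

theorem val_N1 (q : ℕ) :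
    (∑ p : ZMod (8 * q + 1) × Fin (8 * q + 1), if zz q p = 2 ∧ cc q p = 1 then (1 : ℝ) else 0)
      = 19 * (q : ℝ) ^ 2 + 10 * q + 1 := by
  rw [sum_arc' q (fun _ => 1), ← sumN1]
  refine Finset.sum_congr rfl fun i hi => ?_
  rw [Finset.mem_range] at hi
  exact inner1 _ _ (M1_le hi)

theorem val_T0 (q : ℕ) :
    (∑ p : ZMod (8 * q + 1) × Fin (8 * q + 1), if zz q p = 2 then (((p.2 : ℕ) : ℝ) + 1) else 0)
      = 368 / 3 * (q : ℝ) ^ 3 + 82 * (q : ℝ) ^ 2 + 49 / 3 * q + 1 := by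
  rw [sum_arc q (fun k => (k : ℝ) + 1), ← sumT0]
  refine Finset.sum_congr rfl fun i hi => ?_
  rw [Finset.mem_range] at hi
  exact inner2 _ _ (M0_le hi)

theorem val_T1 (q : ℕ) :
    (∑ p : ZMod (8 * q + 1) × Fin (8 * q + 1),
        if zz q p = 2 ∧ cc q p = 1 then (((p.2 : ℕ) : ℝ) + 1) else 0)
      = 347 / 3 * (q : ℝ) ^ 3 + 81 * (q : ℝ) ^ 2 + 49 / 3 * q + 1 := by
  rw [sum_arc' q (fun k => (k : ℝ) + 1), ← sumT1]
  refine Finset.sum_congr rfl fun i hi => ?_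
  rw [Finset.mem_range] at hi
  exact inner2 _ _ (M1_le hi)

theorem cc_cases (q : ℕ) (p : ZMod (8 * q + 1) × Fin (8 * q + 1)) : cc q p = 0 ∨ cc q p = 1 := by
  unfold cc
  split_ifs <;> simp

theorem val_den (q : ℕ) :
    (∑ p : ZMod (8 * q + 1) × Fin (8 * q + 1), if zz q p = 2 then (2 : ℝ) ^ cc q p else 0)
      = (20 * (q : ℝ) ^ 2 + 10 * q + 1) + (19 * (q : ℝ) ^ 2 + 10 * q + 1) := by
  rw [← val_N0, ← val_N1, ← Finset.sum_add_distrib]
  refine Finset.sum_congr rfl fun p _ => ?_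
  by_cases hz : zz q p = 2
  · rcases cc_cases q p with h | h
    · rw [h]
      simp [hz]
    · rw [h]
      simp only [hz, if_true, and_self]
      norm_num
  · simp [hz]

theorem val_num (q : ℕ) :
    (∑ p : ZMod (8 * q + 1) × Fin (8 * q + 1), if zz q p = 2 then
        (2 : ℝ) ^ cc q p * (((p.2 : ℕ) : ℝ) + 1 + cc q p / 2) else 0)
      = (368 / 3 * (q : ℝ) ^ 3 + 82 * (q : ℝ) ^ 2 + 49 / 3 * q + 1)
        + (347 / 3 * (q : ℝ) ^ 3 + 81 * (q : ℝ) ^ 2 + 49 / 3 * q + 1)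
        + (19 * (q : ℝ) ^ 2 + 10 * q + 1) := by
  rw [← val_T0, ← val_T1, ← val_N1, ← Finset.sum_add_distrib, ← Finset.sum_add_distrib]
  refine Finset.sum_congr rfl fun p _ => ?_
  by_cases hz : zz q p = 2
  · rcases cc_cases q p with h | h
    · rw [h]
      simp [hz]
    · rw [h]
      simp only [hz, if_true, and_self]
      push_cast
      ring
  · simp [hz]

theorem exists_two (q : ℕ) : ∃ p, zz q p = 2 := by
  refine ⟨(-((0 : ℕ) : ZMod (8 * q + 1)), Fin.last _), ?_⟩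
  rw [zz_eq_two_iff q 0 (by omega)]
  unfold M0
  rw [if_pos (by omega)]
  simp
  omega

theorem lim0 (q : ℕ) (hq : 1 ≤ q) :
    Tendsto (fun s : ℕ => meanSubtreeOrder (LC (8 * q + 1) (hub q s)) - s) atTop
      (𝓝 ((368 / 3 * (q : ℝ) ^ 3 + 82 * (q : ℝ) ^ 2 + 49 / 3 * q + 1) /
        (20 * (q : ℝ) ^ 2 + 10 * q + 1))) := by
  have h := mean_tendsto (zz q) (fun _ => 0) (fun p => (p.2 : ℕ)) (zz_le q) (exists_two q) 0
  have e1 : (∑ p : ZMod (8 * q + 1) × Fin (8 * q + 1), if zz q p = 2 then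
      (2 : ℝ) ^ 0 * (((p.2 : ℕ) : ℝ) + 1 + ((0 : ℕ) : ℝ) / 2) else 0)
      = 368 / 3 * (q : ℝ) ^ 3 + 82 * (q : ℝ) ^ 2 + 49 / 3 * q + 1 := by
    rw [← val_T0]
    refine Finset.sum_congr rfl fun p _ => ?_
    simp
  have e2 : (∑ p : ZMod (8 * q + 1) × Fin (8 * q + 1), if zz q p = 2 then (2 : ℝ) ^ 0 else 0)
      = 20 * (q : ℝ) ^ 2 + 10 * q + 1 := by
    rw [← val_N0]
    refine Finset.sum_congr rfl fun p _ => ?_
    simp
  rw [e1, e2] at h
  refine h.congr fun s => ?_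
  rw [mean_LC (by omega)]
  simp only [card_att_hub, Fintype.card_sum, Fintype.card_fin, add_zero, Nat.cast_zero]
  have e3 : (((s + s : ℕ) : ℝ)) = 2 * (s : ℝ) := by
    push_cast
    ring
  rw [e3]

theorem lim1 (q : ℕ) (hq : 1 ≤ q) :
    Tendsto (fun s : ℕ => meanSubtreeOrder (LC (8 * q + 1) (hub' q s)) - s) atTop
      (𝓝 (((368 / 3 * (q : ℝ) ^ 3 + 82 * (q : ℝ) ^ 2 + 49 / 3 * q + 1)
        + (347 / 3 * (q : ℝ) ^ 3 + 81 * (q : ℝ) ^ 2 + 49 / 3 * q + 1)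
        + (19 * (q : ℝ) ^ 2 + 10 * q + 1)) /
        ((20 * (q : ℝ) ^ 2 + 10 * q + 1) + (19 * (q : ℝ) ^ 2 + 10 * q + 1)))) := by
  have h := mean_tendsto (zz q) (cc q) (fun p => (p.2 : ℕ)) (zz_le q) (exists_two q) 1
  rw [val_num, val_den] at h
  refine h.congr fun s => ?_
  rw [mean_LC (by omega)]
  simp only [card_att_hub', Fintype.card_option, Fintype.card_sum, Fintype.card_fin]
  have e3 : (((s + s + 1 : ℕ) : ℝ)) = 2 * (s : ℝ) + ((1 : ℕ) : ℝ) := by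
    push_cast
    ring
  rw [e3]

/-- The limiting difference is unbounded below. -/
theorem exists_q (C : ℝ) : ∃ q : ℕ, 1 ≤ q ∧
    ((368 / 3 * (q : ℝ) ^ 3 + 82 * (q : ℝ) ^ 2 + 49 / 3 * q + 1)
        + (347 / 3 * (q : ℝ) ^ 3 + 81 * (q : ℝ) ^ 2 + 49 / 3 * q + 1)
        + (19 * (q : ℝ) ^ 2 + 10 * q + 1)) /
        ((20 * (q : ℝ) ^ 2 + 10 * q + 1) + (19 * (q : ℝ) ^ 2 + 10 * q + 1))
      - (368 / 3 * (q : ℝ) ^ 3 + 82 * (q : ℝ) ^ 2 + 49 / 3 * q + 1) /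
        (20 * (q : ℝ) ^ 2 + 10 * q + 1) < C := by
  obtain ⟨q, hq⟩ := exists_nat_gt (60 + 120 * |C|)
  have habs : 0 ≤ |C| := abs_nonneg C
  have hq60 : (60 : ℝ) < q := by linarith
  have hq1 : 1 ≤ q := by
    have : (1 : ℝ) < q := by linarith
    exact_mod_cast this.le
  refine ⟨q, hq1, ?_⟩
  have hC : -|C| ≤ C := neg_abs_le C
  set x : ℝ := (q : ℝ) with hx
  have hx0 : 0 < x := by linarith
  have hd1 : 0 < (20 * x ^ 2 + 10 * x + 1) + (19 * x ^ 2 + 10 * x + 1) := by positivity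
  have hd2 : 0 < 20 * x ^ 2 + 10 * x + 1 := by positivity
  rw [div_sub_div _ _ hd1.ne' hd2.ne', div_lt_iff₀ (by positivity)]
  have hprod : 0 < ((20 * x ^ 2 + 10 * x + 1) + (19 * x ^ 2 + 10 * x + 1))
      * (20 * x ^ 2 + 10 * x + 1) := by positivity
  refine lt_of_lt_of_le ?_ (mul_le_mul_of_nonneg_right hC hprod.le)
  have hx1 : 1 ≤ x := by linarith
  have p1 : x ≤ x ^ 4 := by
    calc x = x ^ 1 := (pow_one x).symm
      _ ≤ x ^ 4 := pow_le_pow_right₀ hx1 (by norm_num)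
  have p2 : x ^ 2 ≤ x ^ 4 := pow_le_pow_right₀ hx1 (by norm_num)
  have p3 : x ^ 3 ≤ x ^ 4 := pow_le_pow_right₀ hx1 (by norm_num)
  have p0 : 1 ≤ x ^ 4 := one_le_pow₀ hx1
  have hkey : 0 < x ^ 4 * (52 / 3 * x - 922 - 1891 * |C|) := by
    apply mul_pos (by positivity)
    linarith
  have hR : |C| * ((20 * x ^ 2 + 10 * x + 1 + (19 * x ^ 2 + 10 * x + 1)) * (20 * x ^ 2 + 10 * x + 1))
      ≤ |C| * (1891 * x ^ 4) := by
    apply mul_le_mul_of_nonneg_left _ habs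
    have e : (20 * x ^ 2 + 10 * x + 1 + (19 * x ^ 2 + 10 * x + 1)) * (20 * x ^ 2 + 10 * x + 1)
        = 780 * x ^ 4 + 790 * x ^ 3 + 279 * x ^ 2 + 40 * x + 2 := by ring
    rw [e]
    linarith
  have hL : (368 / 3 * x ^ 3 + 82 * x ^ 2 + 49 / 3 * x + 1 + (347 / 3 * x ^ 3 + 81 * x ^ 2
        + 49 / 3 * x + 1) + (19 * x ^ 2 + 10 * x + 1)) * (20 * x ^ 2 + 10 * x + 1)
      - (20 * x ^ 2 + 10 * x + 1 + (19 * x ^ 2 + 10 * x + 1))
        * (368 / 3 * x ^ 3 + 82 * x ^ 2 + 49 / 3 * x + 1)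
      = -(52 / 3) * x ^ 5 + 372 * x ^ 4 + 1168 / 3 * x ^ 3 + 139 * x ^ 2 + 20 * x + 1 := by ring
  rw [hL]
  have e5 : x ^ 4 * (52 / 3 * x - 922 - 1891 * |C|)
      = 52 / 3 * x ^ 5 - 922 * x ^ 4 - |C| * (1891 * x ^ 4) := by ring
  rw [e5] at hkey
  rw [neg_mul]
  linarith

end Pool.Agent.Lib.MP_e83d06_co
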