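import Mathlib
import Pool.Agent.Lib.MP_e83d06_co.Main

set_option autoImplicit false
set_option linter.unusedSectionVars false

namespace Pool.Agent.Lib.MP_e83d06_co

open SimpleGraph Filter Topology

variable {n : ℕ} {Λ : Type*}

/-- One more pendant vertex, at `u`. -/
def extend (h : Λ → ZMod n) (u : ZMod n) : Option Λ → ZMod n := fun o => o.elim u h

/-- Contracting the edge of the additional pendant vertex removes it. -/
def contractIso (h : Λ → ZMod n) (u : ZMod n) :
    LC n h ≃g contract (LC n (extend h u)) (Sum.inl u) (Sum.inr none) where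
  toFun v := match v with
    | Sum.inl i => ⟨Sum.inl i, by simp⟩
    | Sum.inr l => ⟨Sum.inr (some l), by simp⟩
  invFun v := match v with
    | ⟨Sum.inl i, _⟩ => Sum.inl i
    | ⟨Sum.inr (some l), _⟩ => Sum.inr l
    | ⟨Sum.inr none, hv⟩ => absurd rfl hv
  left_inv := by
    rintro (i | l) <;> rfl
  right_inv := by
    rintro ⟨i | l, hv⟩
    · rfl
    · rcases l with _ | l
      · exact absurd rfl hv
      · rfl
  map_rel_iff' := by
    rintro (i | l) (j | m)
    · constructor
      · rintro ⟨hne, h1 | h1 | h1⟩
        · exact h1
        · exfalso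
          apply hne
          have e1 : i = u := Sum.inl_injective h1.1
          have e2 : u = j := h1.2
          subst e1
          subst e2
          rfl
        · exfalso
          apply hne
          have e1 : j = u := Sum.inl_injective h1.1
          have e2 : u = i := h1.2
          subst e1
          subst e2
          rfl
      · intro h1
        refine ⟨?_, Or.inl h1⟩
        intro h2
        exact h1.1 (Sum.inl_injective (congrArg Subtype.val h2))
    · constructor
      · rintro ⟨hne, h1 | h1 | h1⟩
        · exact h1
        · exact h1.2.elim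
        · cases h1.1
      · intro h1
        refine ⟨?_, Or.inl h1⟩
        intro h2
        cases congrArg Subtype.val h2
    · constructor
      · rintro ⟨hne, h1 | h1 | h1⟩
        · exact h1
        · cases h1.1
        · exact h1.2.elim
      · intro h1
        refine ⟨?_, Or.inl h1⟩
        intro h2
        cases congrArg Subtype.val h2
    · constructor
      · rintro ⟨hne, h1 | h1 | h1⟩
        · exact h1
        · cases h1.1
        · cases h1.1
      · intro h1
        exact h1.elim

/-- A leafy cycle is connected. -/
theorem LC_connected (hn : 3 ≤ n) (h : Λ → ZMod n) : (LC n h).Connected := by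
  have : NeZero n := ⟨by omega⟩
  have h1 : Fact (1 < n) := ⟨by omega⟩
  rw [connected_iff_exists_forall_reachable]
  refine ⟨Sum.inl 0, ?_⟩
  have key : ∀ m : ℕ, (LC n h).Reachable (Sum.inl 0) (Sum.inl (m : ZMod n)) := by
    intro m
    induction m with
    | zero => simp
    | succ m ih =>
      refine ih.trans (Adj.reachable ?_)
      refine ⟨?_, Or.inl (by push_cast; rfl)⟩
      push_cast
      intro hh
      have : (1 : ZMod n) = 0 := by
        have h2 : (m : ZMod n) + 0 = m + 1 := by rw [add_zero]; exact hh
        exact (add_left_cancel h2).symm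
      exact one_ne_zero this
  have key' : ∀ i : ZMod n, (LC n h).Reachable (Sum.inl 0) (Sum.inl i) := by
    intro i
    have := key i.val
    rwa [ZMod.natCast_zmod_val] at this
  rintro (i | l)
  · exact key' i
  · exact (key' (h l)).trans (Adj.reachable rfl)

/-- A leafy cycle has as many edges as vertices. -/
theorem LC_edges [Fintype Λ] [NeZero n] (hn : 3 ≤ n) (h : Λ → ZMod n) :
    (LC n h).edgeSet.ncard = Fintype.card (ZMod n ⊕ Λ) := by
  classical
  have h1 : Fact (1 < n) := ⟨by omega⟩
  have hne : ∀ i : ZMod n, i ≠ i + 1 := by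
    intro i hh
    have : (1 : ZMod n) = 0 := by
      have h2 : i + 0 = i + 1 := by rw [add_zero]; exact hh
      exact (add_left_cancel h2).symm
    exact one_ne_zero this
  have h2ne : (1 : ZMod n) + 1 ≠ 0 := by
    intro hh
    have h3 : ((2 : ℕ) : ZMod n) = 0 := by
      push_cast
      rw [← hh]
      norm_num
    rw [ZMod.natCast_eq_zero_iff] at h3
    have := Nat.le_of_dvd (by norm_num) h3
    omega
  rw [← Nat.card_eq_fintype_card, ← Set.ncard_univ]
  symm
  refine Set.ncard_congr (fun v _ => match v with
    | Sum.inl i => s(Sum.inl i, Sum.inl (i + 1))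
    | Sum.inr l => s(Sum.inr l, Sum.inl (h l))) ?_ ?_ ?_
  · rintro (i | l) _
    · exact ⟨hne i, Or.inl rfl⟩
    · exact rfl
  · rintro (i | l) (j | m) _ _ hij
    · simp only [Sym2.eq_iff, Sum.inl.injEq] at hij
      rcases hij with hij | hij
      · rw [hij.1]
      · exfalso
        apply h2ne
        have e1 := hij.1
        have e2 := hij.2
        rw [e1] at e2
        have e3 : j + (1 + 1) = j + 0 := by
          rw [add_zero, ← add_assoc]
          exact e2
        exact add_left_cancel e3
    · simp at hij
    · simp at hij
    · simp only [Sym2.eq_iff, Sum.inr.injEq] at hij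
      rcases hij with hij | hij
      · rw [hij.1]
      · cases hij.1
  · intro e he
    induction e using Sym2.ind with
    | _ v w =>
      rw [mem_edgeSet] at he
      rcases v with i | l
      · rcases w with j | m
        · rcases he.2 with hj | hj
          · exact ⟨Sum.inl i, Set.mem_univ _, by rw [hj]⟩
          · exact ⟨Sum.inl j, Set.mem_univ _, by rw [hj, Sym2.eq_swap]⟩
        · have e1 : h m = i := he
          exact ⟨Sum.inr m, Set.mem_univ _, by rw [← e1, Sym2.eq_swap]⟩
      · rcases w with j | m
        · have e1 : h l = j := he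
          exact ⟨Sum.inr l, Set.mem_univ _, by rw [← e1]⟩
        · exact he.elim

theorem main (C : ℝ) : ∃ (V : Type) (_ : Fintype V) (_ : DecidableEq V) (G : SimpleGraph V)
    (u v : V), G.Connected ∧ G.edgeSet.ncard = Fintype.card V ∧ G.Adj u v ∧
      (∀ w, G.Adj v w → w = u) ∧
      meanSubtreeOrder G - meanSubtreeOrder (contract G u v) < C := by
  obtain ⟨q, hq, hlt⟩ := exists_q C
  have h1 := (lim1 q hq).sub (lim0 q hq)
  have h2 := (h1.eventually (gt_mem_nhds hlt)).exists
  obtain ⟨s, hs⟩ := h2
  refine ⟨ZMod (8 * q + 1) ⊕ Option (Fin s ⊕ Fin s), inferInstance, inferInstance,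
    LC (8 * q + 1) (hub' q s), Sum.inl ((q : ℕ) : ZMod (8 * q + 1)), Sum.inr none,
    LC_connected (by omega) _, LC_edges (by omega) _, rfl, ?_, ?_⟩
  · rintro (i | l) hadj
    · have : ((q : ℕ) : ZMod (8 * q + 1)) = i := hadj
      rw [this]
    · exact hadj.elim
  · have e : meanSubtreeOrder (contract (LC (8 * q + 1) (hub' q s))
        (Sum.inl ((q : ℕ) : ZMod (8 * q + 1))) (Sum.inr none))
        = meanSubtreeOrder (LC (8 * q + 1) (hub q s)) :=
      (mean_iso (contractIso (hub q s) ((q : ℕ) : ZMod (8 * q + 1)))).symm
    rw [e]
    linarith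

end Pool.Agent.Lib.MP_e83d06_co
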